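import Mathlib
import Pool.Agent.Helper50_PN.Stmts

/-!
# Squad PN: upper bound for the number of the conditions
-/

set_option autoImplicit false

open MvPolynomial

namespace Pool.Agent.PN.H20

/-- the number of functions on `I` with sum less than `T` -/
lemma card_small {n : ℕ} (I : Finset (Fin n)) (T : ℕ) :
    ((Finset.range T).biUnion fun t => Finset.finsuppAntidiag I t).card ≤
      (T + I.card - 1).choose I.card := by
  classical
  rcases T with _ | T
  · simp
  · calc ((Finset.range (T + 1)).biUnion fun t => Finset.finsuppAntidiag I t).card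
        ≤ ∑ t ∈ Finset.range (T + 1), (Finset.finsuppAntidiag I t).card := Finset.card_biUnion_le
      _ = ∑ t ∈ Finset.range (T + 1), (I.card).multichoose t :=
          Finset.sum_congr rfl fun t _ => Finset.card_finsuppAntidiag_nat_eq_multichoose t
      _ = (T + I.card).choose I.card := Nat.sum_range_multichoose T I.card
      _ = (T + 1 + I.card - 1).choose I.card := by
          rw [show T + 1 + I.card - 1 = T + I.card by omega]

/-- membership in `CS` -/
lemma mem_CS {n N k m δ B : ℕ} {I : Finset (Fin n)} {i₀ : Fin n}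
    {e : Fin n × Fin (k + 1) → ℕ} : e ∈ CS n N k m δ B I i₀ ↔
      (∀ p, e p < (N + n + 2) * m + 1) ∧
      (wtof e = m ∧ (∀ l ∉ I, e (l, 0) + B ≤ N * (Aof e l - δ)) ∧
      e (i₀, 0) < I.card * (m - δ) ∧ I.card * m ≤ e (i₀, 0) + Aof e i₀ ∧
      (∀ i ∈ I, i ≠ i₀ → m ≤ e (i, 0) + Aof e i) ∧
      m + ∑ i ∈ I.erase i₀, (e (i, 0) + Aof e i) ≤ e (i₀, 0) + Aof e i₀) := by
  classical
  unfold CS
  rw [Finset.mem_filter, Fintype.mem_piFinset]
  simp only [Finset.mem_range]

/-- the jets of an exponent -/
def jets {n k : ℕ} (e : Fin n × Fin (k + 1) → ℕ) : Fin n × Fin k → ℕ := fun p => e (p.1, p.2.succ)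

lemma Aof_eq {n k : ℕ} (e : Fin n × Fin (k + 1) → ℕ) (l : Fin n) : Aof e l = jA (jets e) l := rfl

lemma wtof_eq {n k : ℕ} (e : Fin n × Fin (k + 1) → ℕ) : wtof e = jwt (jets e) := rfl

lemma mem_JS {n k m : ℕ} {α : Fin n × Fin k → ℕ} (h : jwt α = m) : α ∈ JS n k m := by
  classical
  unfold JS
  rw [Finset.mem_filter, Fintype.mem_piFinset]
  refine ⟨fun p => ?_, h⟩
  rw [Finset.mem_range]
  have h1 : ((p.2 : ℕ) + 1) * α (p.1, p.2) ≤ ∑ s : Fin k, ((s : ℕ) + 1) * α (p.1, s) :=
    Finset.single_le_sum (f := fun s : Fin k => ((s : ℕ) + 1) * α (p.1, s))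
      (fun _ _ => Nat.zero_le _) (Finset.mem_univ p.2)
  have h2 : (∑ s : Fin k, ((s : ℕ) + 1) * α (p.1, s)) ≤ jwt α :=
    Finset.single_le_sum (f := fun l : Fin n => ∑ s : Fin k, ((s : ℕ) + 1) * α (l, s))
      (fun _ _ => Nat.zero_le _) (Finset.mem_univ p.1)
  have h3 : α p ≤ ((p.2 : ℕ) + 1) * α (p.1, p.2) := Nat.le_mul_of_pos_left _ (Nat.succ_pos _)
  omega

/-- the reduced exponents at the stratum -/
noncomputable def gam {n k : ℕ} (m : ℕ) (I : Finset (Fin n)) (i₀ : Fin n)
    (e : Fin n × Fin (k + 1) → ℕ) : Fin n → ℕ := by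
  classical
  exact fun i => if i = i₀ then (e (i₀, 0) + Aof e i₀ - I.card * m) -
      ∑ i ∈ I.erase i₀, (e (i, 0) + Aof e i - m)
    else if i ∈ I then e (i, 0) + Aof e i - m else 0

/-- the free exponents outside the stratum -/
noncomputable def fre {n k : ℕ} (I : Finset (Fin n)) (e : Fin n × Fin (k + 1) → ℕ) :
    Fin n → ℕ := by
  classical
  exact fun l => if l ∈ I then 0 else e (l, 0)

lemma sum_gam_le {n N k m δ B : ℕ} {I : Finset (Fin n)} {i₀ : Fin n} (hi₀ : i₀ ∈ I)
    {e : Fin n × Fin (k + 1) → ℕ} (he : e ∈ CS n N k m δ B I i₀) :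
    ∑ i ∈ I.erase i₀, (e (i, 0) + Aof e i - m) + I.card * m ≤ e (i₀, 0) + Aof e i₀ := by
  obtain ⟨-, h1, h2, h3, h4, h5, h6⟩ := mem_CS.1 he
  have hsum : ∑ i ∈ I.erase i₀, (e (i, 0) + Aof e i - m) + (I.card - 1) * m =
      ∑ i ∈ I.erase i₀, (e (i, 0) + Aof e i) := by
    rw [← Finset.card_erase_of_mem hi₀, ← smul_eq_mul, ← Finset.sum_const,
      ← Finset.sum_add_distrib]
    exact Finset.sum_congr rfl fun i hi =>
      Nat.sub_add_cancel (h5 i (Finset.mem_of_mem_erase hi) (Finset.ne_of_mem_erase hi))
  have hc : I.card * m = (I.card - 1) * m + m := by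
    have : 0 < I.card := Finset.card_pos.2 ⟨i₀, hi₀⟩
    obtain ⟨c, hc⟩ : ∃ c, I.card = c + 1 := ⟨I.card - 1, by omega⟩
    rw [hc, Nat.add_sub_cancel, Nat.succ_mul]
  omega

theorem cnc : CncStmt := by
  classical
  intro n N k m δ B I i₀ hB hi₀ hδ
  have hmaps : ∀ e ∈ CS n N k m δ B I i₀, jets e ∈ JS n k m := by
    intro e he
    exact mem_JS ((wtof_eq e).symm.trans (mem_CS.1 he).2.1)
  rw [Finset.card_eq_sum_card_fiberwise hmaps]
  unfold cc
  rw [Finset.mul_sum]
  refine Finset.sum_le_sum fun α _ => ?_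
  -- the target
  set S1 : Finset (Fin n →₀ ℕ) := (Finset.range (jA α i₀ - I.card * δ)).biUnion
    fun t => Finset.finsuppAntidiag I t with hS1
  set S2 : Finset (Fin n → ℕ) := Fintype.piFinset fun l =>
    if l ∈ I then {0} else Finset.range (N * (jA α l - δ)) with hS2
  have hc2 : S2.card = N ^ (n - I.card) * ∏ l ∈ Iᶜ, (jA α l - δ) := by
    rw [hS2, Fintype.card_piFinset]
    have h1 : ∀ l : Fin n, (if l ∈ I then ({0} : Finset ℕ) else
        Finset.range (N * (jA α l - δ))).card = if l ∈ I then 1 else N * (jA α l - δ) := by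
      intro l
      split_ifs <;> simp
    rw [Finset.prod_congr rfl fun l _ => h1 l, ← Finset.prod_mul_prod_compl I]
    have h2 : ∏ l ∈ I, (if l ∈ I then 1 else N * (jA α l - δ)) = 1 :=
      Finset.prod_eq_one fun l hl => if_pos hl
    have h3 : ∏ l ∈ Iᶜ, (if l ∈ I then 1 else N * (jA α l - δ)) =
        ∏ l ∈ Iᶜ, (N * (jA α l - δ)) :=
      Finset.prod_congr rfl fun l hl => if_neg (Finset.mem_compl.1 hl)
    rw [h2, h3, one_mul, Finset.prod_mul_distrib, Finset.prod_const, Finset.card_compl,
      Fintype.card_fin]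
  have hc1 : S1.card ≤ (jA α i₀ - I.card * δ + I.card - 1).choose I.card := card_small I _
  have key : ((CS n N k m δ B I i₀).filter fun e => jets e = α).card ≤ (S1 ×ˢ S2).card := by
    refine Finset.card_le_card_of_injOn
      (fun e => (Finsupp.equivFunOnFinite.symm (gam m I i₀ e), fre I e)) ?_ ?_
    · intro e he
      obtain ⟨he, hα⟩ := Finset.mem_filter.1 (Finset.mem_coe.1 he)
      obtain ⟨-, h1, h2, h3, h4, h5, h6⟩ := mem_CS.1 he
      have hsg := sum_gam_le hi₀ he
      have hA : ∀ l, Aof e l = jA α l := fun l => by rw [Aof_eq, hα]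
      refine Finset.mem_coe.2 (Finset.mem_product.2 ⟨?_, ?_⟩)
      · rw [hS1, Finset.mem_biUnion]
        refine ⟨e (i₀, 0) + Aof e i₀ - I.card * m, ?_, ?_⟩
        · rw [Finset.mem_range, ← hA i₀]
          have hmd : I.card * (m - δ) = I.card * m - I.card * δ := Nat.mul_sub _ _ _
          have hle : I.card * δ ≤ I.card * m := Nat.mul_le_mul_left _ hδ
          rw [hmd] at h3
          omega
        · rw [Finset.mem_finsuppAntidiag]
          constructor
          · have hs : ∑ i ∈ I, gam m I i₀ e i = e (i₀, 0) + Aof e i₀ - I.card * m := by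
              rw [← Finset.add_sum_erase I _ hi₀]
              have hr : ∑ i ∈ I.erase i₀, gam m I i₀ e i =
                  ∑ i ∈ I.erase i₀, (e (i, 0) + Aof e i - m) := by
                refine Finset.sum_congr rfl fun i hi => ?_
                unfold gam
                rw [if_neg (Finset.ne_of_mem_erase hi), if_pos (Finset.mem_of_mem_erase hi)]
              have h0 : gam m I i₀ e i₀ = (e (i₀, 0) + Aof e i₀ - I.card * m) -
                  ∑ i ∈ I.erase i₀, (e (i, 0) + Aof e i - m) := by
                unfold gam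
                rw [if_pos rfl]
              rw [hr, h0]
              omega
            exact hs
          · intro i hi
            by_contra hn
            refine (Finsupp.mem_support_iff.1 hi) ?_
            have hne : i ≠ i₀ := fun h => hn (h ▸ hi₀)
            have : gam m I i₀ e i = 0 := by
              unfold gam
              rw [if_neg hne, if_neg hn]
            exact this
      · rw [hS2, Fintype.mem_piFinset]
        intro l
        by_cases hl : l ∈ I
        · rw [if_pos hl, Finset.mem_singleton]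
          show fre I e l = 0
          unfold fre
          rw [if_pos hl]
        · rw [if_neg hl, Finset.mem_range]
          show fre I e l < _
          unfold fre
          rw [if_neg hl, ← hA l]
          have := h2 l hl
          omega
    · intro e he e' he' hee
      obtain ⟨he, hα⟩ := Finset.mem_filter.1 (Finset.mem_coe.1 he)
      obtain ⟨he', hα'⟩ := Finset.mem_filter.1 (Finset.mem_coe.1 he')
      obtain ⟨-, h1, h2, h3, h4, h5, h6⟩ := mem_CS.1 he
      obtain ⟨-, h1', h2', h3', h4', h5', h6'⟩ := mem_CS.1 he'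
      have hsg := sum_gam_le hi₀ he
      have hsg' := sum_gam_le hi₀ he'
      have hA : ∀ l, Aof e l = jA α l := fun l => by rw [Aof_eq, hα]
      have hA' : ∀ l, Aof e' l = jA α l := fun l => by rw [Aof_eq, hα']
      have hg : gam m I i₀ e = gam m I i₀ e' :=
        Finsupp.equivFunOnFinite.symm.injective (congrArg Prod.fst hee)
      have hf : fre I e = fre I e' := congrArg Prod.snd hee
      have hI : ∀ i ∈ I, i ≠ i₀ → e (i, 0) = e' (i, 0) := by
        intro i hi hne
        have h := congrFun hg i
        unfold gam at h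
        rw [if_neg hne, if_pos hi, if_neg hne, if_pos hi, hA, hA'] at h
        have a := h5 i hi hne
        have b := h5' i hi hne
        rw [hA] at a
        rw [hA'] at b
        omega
      have h0 : e (i₀, 0) = e' (i₀, 0) := by
        have h := congrFun hg i₀
        unfold gam at h
        rw [if_pos rfl, if_pos rfl] at h
        have hs : ∑ i ∈ I.erase i₀, (e (i, 0) + Aof e i - m) =
            ∑ i ∈ I.erase i₀, (e' (i, 0) + Aof e' i - m) :=
          Finset.sum_congr rfl fun i hi => by
            rw [hI i (Finset.mem_of_mem_erase hi) (Finset.ne_of_mem_erase hi), hA, hA']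
        rw [hs] at h hsg
        rw [hA] at h hsg
        rw [hA'] at h hsg'
        omega
      have hall : ∀ l, e (l, 0) = e' (l, 0) := by
        intro l
        by_cases hl : l ∈ I
        · by_cases hl0 : l = i₀
          · rw [hl0]
            exact h0
          · exact hI l hl hl0
        · have h := congrFun hf l
          unfold fre at h
          rw [if_neg hl, if_neg hl] at h
          exact h
      funext p
      obtain ⟨l, s⟩ := p
      refine Fin.cases (hall l) (fun s => ?_) s
      exact congrFun (hα.trans hα'.symm) (l, s)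
  refine key.trans ?_
  rw [Finset.card_product, hc2]
  calc S1.card * (N ^ (n - I.card) * ∏ l ∈ Iᶜ, (jA α l - δ))
      ≤ (jA α i₀ - I.card * δ + I.card - 1).choose I.card *
        (N ^ (n - I.card) * ∏ l ∈ Iᶜ, (jA α l - δ)) := Nat.mul_le_mul_right _ hc1
    _ = N ^ (n - I.card) * ((jA α i₀ - I.card * δ + I.card - 1).choose I.card *
        ∏ l ∈ Iᶜ, (jA α l - δ)) := by ring

end Pool.Agent.PN.H20
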